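import Mathlib

namespace Pool.Agent.Results.MP_f4c717_co.DropTwo

/-- A Boolean realizer of size `d`: linear orders `L i` (strict total orders) and a Boolean
function `φ` of the `d` comparisons that decides `x < y` for distinct `x, y`. -/
def HasRealizer (X : Type) [PartialOrder X] (d : ℕ) : Prop :=
  ∃ (L : Fin d → X → X → Prop) (φ : (Fin d → Prop) → Prop),
    (∀ i, IsStrictTotalOrder X (L i)) ∧ ∀ x y : X, x ≠ y → (x < y ↔ φ fun i => L i x y)

/-- The Boolean dimension. -/
noncomputable def bdim (X : Type) [PartialOrder X] : ℕ := sInf {d | HasRealizer X d}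

theorem sto_lift {X Z : Type} [LinearOrder Z] (f : X → Z) (hf : Function.Injective f) :
    IsStrictTotalOrder X fun a b => f a < f b where
  trichotomous _ _ h1 h2 := hf (le_antisymm (not_lt.mp h2) (not_lt.mp h1))
  irrefl _ := lt_irrefl _
  trans _ _ _ := lt_trans

theorem sto_key {X Z : Type} [LinearOrder Z] (k : X → ℕ) (f : X → Z)
    (hf : Function.Injective f) :
    IsStrictTotalOrder X fun a b => k a < k b ∨ (k a = k b ∧ f a < f b) := by
  have := sto_lift (fun a => toLex (k a, f a)) fun a b h => hf (Prod.mk.inj h).2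
  simpa only [Prod.Lex.toLex_lt_toLex] using this

theorem sto_swap {X : Type} {r : X → X → Prop} (h : IsStrictTotalOrder X r) :
    IsStrictTotalOrder X fun a b => r b a where
  trichotomous a b h1 h2 := h.trichotomous a b h2 h1
  irrefl a := h.irrefl a
  trans a b c h1 h2 := h.trans c b a h2 h1

theorem sto_not {X : Type} {r : X → X → Prop} (h : IsStrictTotalOrder X r) {a b : X}
    (hab : a ≠ b) : r a b ↔ ¬ r b a :=
  ⟨fun h1 h2 => h.irrefl a (h.trans _ _ _ h1 h2),
    fun h1 => by_contra fun h2 => hab (h.trichotomous a b h2 h1)⟩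

theorem sto_top {X : Type} (x : X) {r : {y // y ≠ x} → {y // y ≠ x} → Prop}
    (h : IsStrictTotalOrder _ r) :
    IsStrictTotalOrder X fun a b => ∃ ha : a ≠ x, ∀ hb : b ≠ x, r ⟨a, ha⟩ ⟨b, hb⟩ where
  trichotomous a b h1 h2 := by
    by_cases ha : a = x <;> by_cases hb : b = x
    · rw [ha, hb]
    · exact absurd ⟨hb, fun h => absurd ha h⟩ h2
    · exact absurd ⟨ha, fun h => absurd hb h⟩ h1
    · exact congrArg Subtype.val (h.trichotomous ⟨a, ha⟩ ⟨b, hb⟩ (fun h' => h1 ⟨ha, fun _ => h'⟩)
        fun h' => h2 ⟨hb, fun _ => h'⟩)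
  irrefl a := fun ⟨ha, h'⟩ => h.irrefl _ (h' ha)
  trans a b c := fun ⟨ha, h1⟩ ⟨hb, h2⟩ => ⟨ha, fun hc => h.trans _ _ _ (h1 hb) (h2 hc)⟩

theorem normalise {Y : Type} [PartialOrder Y] {d : ℕ} (h : HasRealizer Y d) {y z : Y}
    (hyz : y < z) : ∃ L : Fin d → Y → Y → Prop, ∃ φ : (Fin d → Prop) → Prop,
    (∀ i, IsStrictTotalOrder Y (L i)) ∧ (∀ a b : Y, a ≠ b → (a < b ↔ φ fun i => L i a b)) ∧
      φ fun _ => True := by
  classical
  obtain ⟨L, φ, h1, h2⟩ := h
  refine ⟨fun i => if L i y z then L i else fun a b => L i b a,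
    fun w => φ fun i => if L i y z then w i else ¬ w i, fun i => ?_, fun a b hab => ?_, ?_⟩
  · by_cases hi : L i y z
    · simpa only [if_pos hi] using h1 i
    · simpa only [if_neg hi] using sto_swap (h1 i)
  · rw [h2 a b hab]
    refine iff_of_eq (congrArg φ (funext fun i => ?_))
    by_cases hi : L i y z
    · simp only [if_pos hi]
    · simp only [if_neg hi]; exact propext (sto_not (h1 i) hab)
  · convert (h2 y z hyz.ne).mp hyz using 2 with i
    by_cases hi : L i y z <;> simp [hi]

theorem step {X : Type} [PartialOrder X] (x : X) {d : ℕ} (h : HasRealizer {y // y ≠ x} d) :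
    ∃ d' ≤ d + 2, HasRealizer X d' := by
  classical
  let l : X → LinearExtension X := toLinearExtension
  have hl : Function.Injective l := fun _ _ h => h
  have hlt : ∀ {a b}, a < b → l a < l b := fun h =>
    lt_of_le_of_ne (toLinearExtension.monotone h.le) (hl.ne h.ne)
  by_cases hc : ∃ y z : {y // y ≠ x}, y < z
  · obtain ⟨y, z, hyz⟩ := hc
    obtain ⟨L, φ, h1, h2, h3⟩ := normalise h hyz
    let k1 : X → ℕ := fun a => if x < a then 2 else if a = x then 1 else 0
    let k2 : X → ℕ := fun a => if a < x then 0 else if a = x then 1 else 2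
    let M1 : X → X → Prop := fun a b => k1 a < k1 b ∨ (k1 a = k1 b ∧ l a < l b)
    let M2 : X → X → Prop := fun a b => k2 a < k2 b ∨ (k2 a = k2 b ∧ l a < l b)
    have m1 : ∀ a b, a < b → M1 a b := fun a b hab => by
      have : k1 a ≤ k1 b := by
        simp only [k1]
        split_ifs <;> first | omega | order
      exact this.lt_or_eq.imp id fun h => ⟨h, hlt hab⟩
    have m2 : ∀ a b, a < b → M2 a b := fun a b hab => by
      have : k2 a ≤ k2 b := by
        simp only [k2]
        split_ifs <;> first | omega | order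
      exact this.lt_or_eq.imp id fun h => ⟨h, hlt hab⟩
    refine ⟨d + 2, le_rfl, Fin.cons M1 (Fin.cons M2 fun i a b =>
      ∃ ha : a ≠ x, ∀ hb : b ≠ x, L i ⟨a, ha⟩ ⟨b, hb⟩),
      fun w => if (∀ i : Fin d, w i.succ.succ) ∨ (∀ i : Fin d, ¬ w i.succ.succ) then w 0 ∧ w 1
        else φ fun i => w i.succ.succ,
      Fin.cases (sto_key k1 l hl) (Fin.cases (sto_key k2 l hl) fun i => sto_top x (h1 i)),
      fun a b hab => ?_⟩
    simp only [Fin.cons_succ, Fin.cons_zero, Fin.cons_one]
    by_cases ha : a = x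
    · subst ha
      rw [if_pos (Or.inr fun i h => h.1 rfl)]
      refine ⟨fun h => ⟨m1 _ _ h, m2 _ _ h⟩, fun h => by_contra fun h' => ?_⟩
      have := h.1
      simp [M1, k1, h', hab.symm] at this
    by_cases hb : b = x
    · subst hb
      rw [if_pos (Or.inl fun i => ⟨ha, fun h => absurd rfl h⟩)]
      refine ⟨fun h => ⟨m1 _ _ h, m2 _ _ h⟩, fun h => by_contra fun h' => ?_⟩
      have := h.2
      simp [M2, k2, h', hab] at this
    have hab' : (⟨a, ha⟩ : {y // y ≠ x}) ≠ ⟨b, hb⟩ := fun h => hab (congrArg Subtype.val h)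
    have e : ∀ i, (∃ ha : a ≠ x, ∀ hb : b ≠ x, L i ⟨a, ha⟩ ⟨b, hb⟩) ↔ L i ⟨a, ha⟩ ⟨b, hb⟩ :=
      fun i => ⟨fun ⟨_, h⟩ => h hb, fun h => ⟨ha, fun _ => h⟩⟩
    simp only [e]
    split_ifs with h4
    · refine ⟨fun h => ⟨m1 _ _ h, m2 _ _ h⟩, fun h => ?_⟩
      rcases h4 with h4 | h4
      · refine (h2 _ _ hab').mpr ?_
        simpa only [h4] using h3
      · have : b < a := by
          refine (h2 _ _ hab'.symm).mpr ?_
          have : ∀ i, L i ⟨b, hb⟩ ⟨a, ha⟩ := fun i => (sto_not (h1 i) hab'.symm).mpr (h4 i)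
          simpa only [this] using h3
        exact absurd (m1 _ _ this) ((sto_not (sto_key k1 l hl) hab).mp h.1)
    · exact h2 _ _ hab'
  · let k1 : X → ℕ := fun a => if x < a then 3 else if a = x then 2 else if a < x then 1 else 0
    let k2 : X → ℕ := fun a => if x < a then 2 else if a = x then 1 else if a < x then 0 else 3
    refine ⟨2, by omega, ![fun a b => k1 a < k1 b ∨ (k1 a = k1 b ∧ l a < l b),
      fun a b => k2 a < k2 b ∨ (k2 a = k2 b ∧ OrderDual.toDual (l a) < OrderDual.toDual (l b))],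
      fun w => w 0 ∧ w 1, fun i => ?_, fun a b hab => ?_⟩
    · fin_cases i
      · exact sto_key k1 l hl
      · exact sto_key k2 (fun a => OrderDual.toDual (l a)) hl
    · have h0 : a ≠ x → b ≠ x → ¬ a < b := fun ha hb h => hc ⟨⟨a, ha⟩, ⟨b, hb⟩, h⟩
      have h1 : ¬ (l a < l b ∧ l b < l a) := fun h => lt_asymm h.1 h.2
      simp only [Matrix.cons_val_zero, Matrix.cons_val_one, OrderDual.toDual_lt_toDual, k1, k2]
      by_cases a1 : x < a <;> by_cases a2 : a = x <;> by_cases a3 : a < x <;>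
        by_cases b1 : x < b <;> by_cases b2 : b = x <;> by_cases b3 : b < x <;>
        first
          | (exfalso; order)
          | (simp [a1, a2, a3, b1, b2, b3, h1, h0]; done)
          | (simp only [a1, a2, a3, b1, b2, b3]; simp; order)

theorem exists_realizer (n : ℕ) : ∀ (X : Type) [Fintype X] [PartialOrder X],
    Fintype.card X = n → ∃ d, HasRealizer X d := by
  classical
  induction n with
  | zero =>
    intro X _ _ h
    have := Fintype.card_eq_zero_iff.mp h
    exact ⟨0, Fin.elim0, fun _ => True, fun i => i.elim0, fun x => isEmptyElim x⟩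
  | succ n ih =>
    intro X _ _ h
    obtain ⟨x⟩ := Fintype.card_pos_iff.mp (show 0 < Fintype.card X by omega)
    obtain ⟨d, hd⟩ := ih {y // y ≠ x} (by simp [Fintype.card_subtype_compl, h])
    obtain ⟨d', -, h'⟩ := step x hd
    exact ⟨d', h'⟩

theorem upper (X : Type) [Fintype X] [PartialOrder X] (x : X) :
    bdim X ≤ bdim {y // y ≠ x} + 2 := by
  classical
  obtain ⟨d', h1, h2⟩ := step x (Nat.sInf_mem (s := {d | HasRealizer {y // y ≠ x} d})
    (exists_realizer _ _ rfl))
  exact (Nat.sInf_le (s := {d | HasRealizer X d}) h2).trans h1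

theorem result :
    (∀ (X : Type) [Fintype X] [PartialOrder X], HasRealizer X (bdim X) ∧
      ∀ x : X, bdim X ≤ bdim {y // y ≠ x} + 2) ∧
    ∃ (X : Type) (_ : Fintype X) (_ : PartialOrder X) (x : X),
      bdim X = bdim {y // y ≠ x} + 2 := by
  refine ⟨fun X _ _ => ⟨Nat.sInf_mem (s := {d | HasRealizer X d}) (exists_realizer _ X rfl),
    upper X⟩, Bool ⊕ Unit, inferInstance, inferInstance, .inl true,
    le_antisymm (upper _ _) ?_⟩
  have h0 : bdim {y : Bool ⊕ Unit // y ≠ .inl true} = 0 := by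
    refine Nat.sInf_eq_zero.mpr (Or.inl ⟨Fin.elim0, fun _ => False, fun i => i.elim0, ?_⟩)
    rintro ⟨(_ | _) | _, ha⟩ ⟨(_ | _) | _, hb⟩ h <;> first | exact absurd rfl hb | simp_all
  rw [h0]
  refine le_csInf (exists_realizer _ _ rfl) fun d hd => ?_
  by_contra hc
  obtain ⟨L, φ, h1, h2⟩ := hd
  have a1 := (h2 (.inl false) (.inl true) (by simp)).mp (by simp)
  have a2 := (h2 (.inl false) (.inr ()) (by simp)).not.mp (by simp)
  have a3 := (h2 (.inr ()) (.inl false) (by simp)).not.mp (by simp)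
  have hs : Subsingleton (Fin d) := Fin.subsingleton_iff_le_one.mpr (by omega)
  by_cases h : ∀ i, L i (.inl false) (.inl true) ↔ L i (.inl false) (.inr ())
  · exact a2 (by simpa only [h] using a1)
  · push Not at h
    obtain ⟨i, hi⟩ := h
    refine a3 ?_
    convert a1 using 2 with j
    rw [Subsingleton.elim j i, sto_not (h1 i) (by simp)]
    tauto

end Pool.Agent.Results.MP_f4c717_co.DropTwo
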